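import Pool.Agent.H88.WR.Targets

/-! # Rows FHS, FSC, FNB -/

set_option autoImplicit false

open Filter Topology Set Pool.Agent.H85.WMP Pool.Agent.H88.WR

namespace Pool.Agent.H5.WR

/-- the sorted list of a nonempty set -/
lemma sort_split (A : Finset ℕ) (hA : A.Nonempty) : ∃ n l, A.sort (· ≤ ·) = n :: l ∧
    n ∈ A ∧ (A.erase n).sort (· ≤ ·) = l ∧ (∀ a ∈ A.erase n, n < a) ∧ ∀ a ∈ A, n ≤ a := by
  classical
  set n := A.min' hA with hn
  have h1 : n ∈ A := A.min'_mem hA
  have h2 : ∀ a ∈ A, n ≤ a := fun a ha => A.min'_le a ha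
  have h3 : ∀ a ∈ A.erase n, n < a := by
    intro a ha
    have h4 := Finset.mem_erase.1 ha
    exact lt_of_le_of_ne (h2 a h4.2) (Ne.symm h4.1)
  refine ⟨n, (A.erase n).sort (· ≤ ·), ?_, h1, rfl, h3, h2⟩
  have h5 := Finset.sort_insert (· ≤ ·) (s := A.erase n) (a := n) (fun b hb => (h3 b hb).le)
    (Finset.notMem_erase n A)
  rwa [Finset.insert_erase h1] at h5

lemma forall2_trans : ∀ (l1 l2 l3 : List ℕ), List.Forall₂ (· ≤ ·) l1 l2 →
    List.Forall₂ (· ≤ ·) l2 l3 → List.Forall₂ (· ≤ ·) l1 l3
  | [], [], [], _, _ => List.Forall₂.nil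
  | _ :: _, _ :: _, _ :: _, List.Forall₂.cons h1 h2, List.Forall₂.cons h3 h4 =>
    List.Forall₂.cons (h1.trans h3) (forall2_trans _ _ _ h2 h4)

/-- comparison of sorted lists -/
lemma spread_lists (f : ℕ → ℕ) : ∀ (l' l : List ℕ), l.Pairwise (· < ·) → l'.Pairwise (· < ·) →
    (∀ b ∈ l', f b ∈ l ∧ f b ≤ b) → (∀ b ∈ l', ∀ b' ∈ l', b < b' → f b < f b') →
    List.Forall₂ (· ≤ ·) (l.take l'.length) l' := by
  intro l'
  induction l' with
  | nil =>
    intro l _ _ _ _
    simp
  | cons b m' ih =>
    intro l hl hl' hf hmono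
    cases l with
    | nil =>
      have := (hf b (List.mem_cons_self)).1
      simp at this
    | cons a m =>
      have hab : a ≤ f b := by
        rcases List.mem_cons.1 (hf b List.mem_cons_self).1 with h | h
        · exact h.ge
        · exact (List.rel_of_pairwise_cons hl h).le
      rw [List.length_cons, List.take_succ_cons]
      refine List.Forall₂.cons (hab.trans (hf b List.mem_cons_self).2) ?_
      refine ih m (List.Pairwise.of_cons hl) (List.Pairwise.of_cons hl') ?_ ?_
      · intro b' hb'
        have h1 := hf b' (List.mem_cons_of_mem _ hb')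
        refine ⟨?_, h1.2⟩
        have h2 : f b < f b' := hmono b List.mem_cons_self b' (List.mem_cons_of_mem _ hb')
          (List.rel_of_pairwise_cons hl' hb')
        rcases List.mem_cons.1 h1.1 with h | h
        · omega
        · exact h
      · intro c hc d hd
        exact hmono c (List.mem_cons_of_mem _ hc) d (List.mem_cons_of_mem _ hd)

lemma sort_lt (A : Finset ℕ) : (A.sort (· ≤ ·)).Pairwise (· < ·) :=
  A.sortedLT_sort.pairwise

/-- labels of a spread set -/
lemma spread_tail (A B : Finset ℕ) (f : ℕ → ℕ) (hf : ∀ b ∈ B, f b ∈ A ∧ f b ≤ b)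
    (hm : StrictMonoOn f (B : Set ℕ)) (t : List ℕ)
    (ht : List.Forall₂ (· ≤ ·) t (A.sort (· ≤ ·)).tail) :
    ∃ n, List.Forall₂ (· ≤ ·) (t.take n) (B.sort (· ≤ ·)).tail := by
  have h1 := spread_lists f (B.sort (· ≤ ·)) (A.sort (· ≤ ·)) (sort_lt A) (sort_lt B)
    (fun b hb => by
      have h2 := hf b ((Finset.mem_sort _).1 hb)
      exact ⟨(Finset.mem_sort _).2 h2.1, h2.2⟩)
    (fun b hb b' hb' h => hm ((Finset.mem_sort _).1 hb) ((Finset.mem_sort _).1 hb') h)
  set l := A.sort (· ≤ ·)
  set l' := B.sort (· ≤ ·)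
  cases hl' : l' with
  | nil =>
    refine ⟨0, ?_⟩
    simp
  | cons b m' =>
    rw [hl'] at h1
    cases hl : l with
    | nil =>
      rw [hl] at h1
      simp at h1
    | cons a m =>
      rw [hl, List.length_cons, List.take_succ_cons] at h1
      rw [hl] at ht
      refine ⟨m'.length, ?_⟩
      rw [List.tail_cons] at ht ⊢
      exact forall2_trans _ _ _ (List.forall₂_take _ ht) (List.forall₂_cons.1 h1).2

theorem pf_FHS : T_FHS := by
  intro Tr hT A hA B f hf hm
  rcases B.eq_empty_or_nonempty with rfl | hB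
  · exact Or.inl rfl
  rcases hA with rfl | ⟨C, s, hC, hCA, hs⟩
  · obtain ⟨b, hb⟩ := hB
    have := (hf b hb).1
    simp at this
  · obtain ⟨n, hn⟩ := spread_tail A B f hf hm s hs
    refine Or.inr ⟨C, s.take n, hT.pre C (s.take n) (s.drop n) ?_, fun b hb => ?_, hn⟩
    · rw [List.take_append_drop]
      exact hC
    · exact (hCA _ (hf b hb).1).trans (hf b hb).2

lemma forall2_replicate : ∀ l : List ℕ, List.Forall₂ (· ≤ ·) (List.replicate l.length 0) l
  | [] => List.Forall₂.nil
  | a :: l => List.Forall₂.cons (Nat.zero_le a) (forall2_replicate l)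

theorem pf_FSC : T_FSC := by
  intro Tr hT
  refine ⟨Or.inl rfl, fun n => Or.inr ⟨0, [], hT.short 0 [] le_rfl, fun a _ => Nat.zero_le a, ?_⟩,
    fun A n hA hc => ?_⟩
  · rw [Finset.sort_singleton]
    exact List.Forall₂.nil
  · rcases A.eq_empty_or_nonempty with rfl | hne
    · exact Or.inl rfl
    · refine Or.inr ⟨n, List.replicate (A.sort (· ≤ ·)).tail.length 0, hT.short _ _ ?_, hA,
        forall2_replicate _⟩
      rw [List.length_replicate, List.length_tail, Finset.length_sort]
      omega

/-- the sorted list of the image of a strictly monotone sequence -/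
lemma sort_image (g : ℕ → ℕ) (hg : StrictMono g) (r : ℕ) :
    ((Finset.range r).image g).sort (· ≤ ·) = (List.range r).map g := by
  have h1 := StrictMonoOn.map_finsetSort (s := Finset.range r)
    (f := ⟨g, hg.injective⟩) (fun a _ b _ h => hg h)
  rw [Finset.sort_range, Finset.map_eq_image] at h1
  exact h1.symm

theorem pf_FNB : T_FNB := by
  intro Tr hT m hm k C
  by_contra hcon
  push Not at hcon
  -- choose the indices
  have hex : ∀ n i : ℕ, ∃ i' : ℕ, i < i' ∧ n ≤ m i' := fun n i =>
    ⟨max n i + 1, by omega, by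
      have := hm.id_le (max n i + 1)
      simp only [id_eq] at this
      omega⟩
  choose F hF1 hF2 using hex
  let j : ℕ → ℕ := fun i => Nat.rec (F C 0) (fun _ p => F (k p) p) i
  have hj0 : C ≤ m (j 0) := hF2 C 0
  have hjs : ∀ i, j i < j (i + 1) := fun i => hF1 (k (j i)) (j i)
  have hjk : ∀ i, k (j i) ≤ m (j (i + 1)) := fun i => hF2 (k (j i)) (j i)
  have hj : StrictMono j := strictMono_nat_of_lt_succ hjs
  have hg : StrictMono fun i => m (j i) := hm.comp hj
  have key : ∀ r, (Finset.range r).image (fun i => m (j i)) ∈ FamT Tr := by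
    intro r
    induction r with
    | zero =>
      left
      simp
    | succ r ih =>
      right
      have h1 := hcon j r hj ih
      refine ⟨C, (List.range r).map (fun i => k (j i)), h1, ?_, ?_⟩
      · intro a ha
        obtain ⟨i, -, rfl⟩ := Finset.mem_image.1 ha
        exact hj0.trans (hg.monotone (Nat.zero_le i))
      · rw [sort_image _ hg, List.range_succ_eq_map, List.map_cons, List.tail_cons,
          List.map_map]
        have h2 : ∀ l : List ℕ, List.Forall₂ (· ≤ ·) (l.map fun i => k (j i))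
            (l.map ((fun i => m (j i)) ∘ Nat.succ)) := by
          intro l
          induction l with
          | nil => exact List.Forall₂.nil
          | cons a l ih2 => exact List.Forall₂.cons (hjk a) ih2
        exact h2 _
  obtain ⟨r, hr⟩ := hT.nobr C fun i => k (j i)
  exact hr (hcon j r hj (key r))

end Pool.Agent.H5.WR
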