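import Pool.Agent.H88.WR.Targets

/-! # Rows PTU and PTD: the property of Ptak for unions -/

set_option autoImplicit false

open Filter Topology Set Pool.Agent.H85.WMP Pool.Agent.H88.WR

namespace Pool.Agent.H5.WR

lemma wt_sum {ι : Type} (s : Finset ι) (c : ι → ℝ) (W : ι → (ℕ →₀ ℝ)) (A : Finset ℕ) :
    wt (∑ i ∈ s, c i • W i) A = ∑ i ∈ s, c i * wt (W i) A := by
  unfold wt
  simp only [Finsupp.coe_finsetSum, Finset.sum_apply, Finsupp.smul_apply, smul_eq_mul]
  rw [Finset.sum_comm]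
  exact Finset.sum_congr rfl fun i _ => by rw [Finset.mul_sum]

lemma tot_eq (w : ℕ →₀ ℝ) (S : Finset ℕ) (hS : w.support ⊆ S) :
    (w.sum fun _ r => r) = wt w S := by
  unfold wt
  exact Finsupp.sum_of_support_subset w hS _ fun _ _ => rfl

lemma wt_nonneg {w : ℕ →₀ ℝ} (h : ∀ n, 0 ≤ w n) (A : Finset ℕ) : 0 ≤ wt w A :=
  Finset.sum_nonneg fun a _ => h a

lemma wt_le_one {L : Set ℕ} {w : ℕ →₀ ℝ} (h : Cvx L w) (A : Finset ℕ) : wt w A ≤ 1 := by
  classical
  rw [← h.2.1, tot_eq w (w.support ∪ A) Finset.subset_union_left]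
  exact Finset.sum_le_sum_of_subset_of_nonneg Finset.subset_union_right fun i _ _ => h.1 i

lemma wt_zero {w : ℕ →₀ ℝ} {A : Finset ℕ} (h : ∀ a ∈ A, a ∉ w.support) : wt w A = 0 :=
  Finset.sum_eq_zero fun a ha => Finsupp.notMem_support_iff.1 (h a ha)

/-- a convex combination of convex combinations -/
lemma cvx_sum {ι : Type} (s : Finset ι) (c : ι → ℝ) (W : ι → (ℕ →₀ ℝ)) (L : Set ℕ)
    (hc : ∀ i ∈ s, 0 ≤ c i) (h1 : ∑ i ∈ s, c i = 1) (hW : ∀ i ∈ s, Cvx L (W i)) :
    Cvx L (∑ i ∈ s, c i • W i) := by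
  classical
  refine ⟨fun n => ?_, ?_, fun n hn => ?_⟩
  · simp only [Finsupp.coe_finsetSum, Finset.sum_apply, Finsupp.smul_apply, smul_eq_mul]
    exact Finset.sum_nonneg fun i hi => mul_nonneg (hc i hi) ((hW i hi).1 n)
  · set S : Finset ℕ := (∑ i ∈ s, c i • W i).support ∪ s.biUnion fun i => (W i).support with hS
    rw [tot_eq _ S Finset.subset_union_left, wt_sum]
    rw [← h1]
    refine Finset.sum_congr rfl fun i hi => ?_
    have h2 : wt (W i) S = 1 := by
      rw [← (hW i hi).2.1, tot_eq (W i) S]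
      exact (Finset.subset_biUnion_of_mem (fun i => (W i).support) hi).trans
        Finset.subset_union_right
    rw [h2, mul_one]
  · by_contra hnL
    apply Finsupp.mem_support_iff.1 hn
    simp only [Finsupp.coe_finsetSum, Finset.sum_apply, Finsupp.smul_apply, smul_eq_mul]
    refine Finset.sum_eq_zero fun i hi => ?_
    have h2 : W i n = 0 := by
      by_contra h3
      exact hnL ((hW i hi).2.2 n (Finsupp.mem_support_iff.2 h3))
    rw [h2, mul_zero]

lemma cvx_mono {L L' : Set ℕ} {w : ℕ →₀ ℝ} (h : L ⊆ L') (hw : Cvx L w) : Cvx L' w :=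
  ⟨hw.1, hw.2.1, fun n hn => h (hw.2.2 n hn)⟩

lemma cvx_ne {L : Set ℕ} {w : ℕ →₀ ℝ} (hw : Cvx L w) : w.support.Nonempty := by
  rw [Finset.nonempty_iff_ne_empty]
  intro h
  have h1 := hw.2.1
  rw [Finsupp.sum, h, Finset.sum_empty] at h1
  exact zero_ne_one h1

lemma inf_above {L : Set ℕ} (hL : L.Infinite) (n : ℕ) : (L ∩ {a | n < a}).Infinite := by
  have h1 : L \ {a | a ≤ n} ⊆ L ∩ {a | n < a} := by
    intro a ha
    have h2 : ¬ a ≤ n := ha.2
    exact ⟨ha.1, (not_le.1 h2 : n < a)⟩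
  exact (hL.sdiff (Set.finite_le_nat n)).mono h1

/-- successive convex combinations -/
structure Suc (L : Set ℕ) (N : ℕ → ℕ) (w : ℕ → (ℕ →₀ ℝ)) : Prop where
  mono : StrictMono N
  cvx : ∀ i, Cvx L (w i)
  supp : ∀ i, ∀ a ∈ (w i).support, N i < a ∧ a ≤ N (i + 1)
  top : ∀ i, N (i + 1) ∈ (w i).support

lemma exists_suc (L : Set ℕ) (P : ℕ → (ℕ →₀ ℝ) → Prop)
    (h : ∀ n, ∃ w, Cvx (L ∩ {a | n < a}) w ∧ P n w) :
    ∃ (N : ℕ → ℕ) (w : ℕ → (ℕ →₀ ℝ)), Suc L N w ∧ ∀ i, P (N i) (w i) := by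
  choose F hF1 hF2 using h
  have hne : ∀ n, (F n).support.Nonempty := fun n => cvx_ne (hF1 n)
  let N : ℕ → ℕ := fun i => Nat.rec 0 (fun _ p => (F p).support.max' (hne p)) i
  have hN : ∀ i, N (i + 1) = (F (N i)).support.max' (hne (N i)) := fun i => rfl
  have htop : ∀ i, N (i + 1) ∈ (F (N i)).support := by
    intro i
    rw [hN]
    exact Finset.max'_mem _ _
  refine ⟨N, fun i => F (N i), ⟨?_, fun i => cvx_mono Set.inter_subset_left (hF1 (N i)), ?_,
    htop⟩, fun i => hF2 (N i)⟩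
  · exact strictMono_nat_of_lt_succ fun i => ((hF1 (N i)).2.2 _ (htop i)).2
  · intro i a ha
    refine ⟨((hF1 (N i)).2.2 a ha).2, ?_⟩
    rw [hN]
    exact Finset.le_max' _ a ha

theorem pf_PTU : T_PTU := by
  classical
  intro M M' hM hM' hP hP' L hL ε hε
  obtain ⟨N, w, hS, hw⟩ := exists_suc L (fun _ w => ∀ A ∈ M, wt w A ≤ ε)
    (fun n => hP _ (inf_above hL n) ε hε)
  have hinj : Function.Injective fun i => N (i + 1) := fun a b h => by
    have := hS.mono.injective h
    omega
  have hinf : (Set.range fun i => N (i + 1)).Infinite := Set.infinite_range_of_injective hinj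
  obtain ⟨v, hv, hvM⟩ := hP' _ hinf ε hε
  have hidx : ∀ m : ℕ, ∃ i : ℕ, m ∈ v.support → N (i + 1) = m := by
    intro m
    by_cases hm : m ∈ v.support
    · obtain ⟨i, hi⟩ := hv.2.2 m hm
      exact ⟨i, fun _ => hi⟩
    · exact ⟨0, fun h => absurd h hm⟩
  choose idx hidx using hidx
  have hcv : Cvx L (∑ m ∈ v.support, v m • w (idx m)) :=
    cvx_sum _ _ _ L (fun m _ => hv.1 m) hv.2.1 fun m _ => hS.cvx _
  refine ⟨_, hcv, fun A hA => ?_⟩
  rw [wt_sum]
  rcases hA with hA | hA
  · calc ∑ m ∈ v.support, v m * wt (w (idx m)) A ≤ ∑ m ∈ v.support, v m * ε :=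
          Finset.sum_le_sum fun m _ => mul_le_mul_of_nonneg_left (hw _ A hA) (hv.1 m)
      _ = ε := by
          rw [← Finset.sum_mul]
          have h1 : ∑ m ∈ v.support, v m = 1 := hv.2.1
          rw [h1, one_mul]
  · set A' := v.support.filter fun m => ∃ a ∈ A, a ∈ (w (idx m)).support with hA'
    have hex : ∀ m : ℕ, ∃ a : ℕ, m ∈ A' → a ∈ A ∧ a ∈ (w (idx m)).support := by
      intro m
      by_cases hm : m ∈ A'
      · obtain ⟨a, ha1, ha2⟩ := (Finset.mem_filter.1 hm).2
        exact ⟨a, fun _ => ⟨ha1, ha2⟩⟩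
      · exact ⟨0, fun h => absurd h hm⟩
    choose f hf using hex
    have hmem : A' ∈ M' := by
      refine hM' A hA A' f (fun b hb => ⟨(hf b hb).1, ?_⟩) ?_
      · have h1 := (hS.supp _ _ (hf b hb).2).2
        rwa [hidx b (Finset.mem_filter.1 hb).1] at h1
      · intro b hb c hc hbc
        have h1 := hS.supp _ _ (hf b hb).2
        have h2 := hS.supp _ _ (hf c hc).2
        have h3 := hidx b (Finset.mem_filter.1 hb).1
        have h4 := hidx c (Finset.mem_filter.1 hc).1
        have h5 : idx b + 1 < idx c + 1 := by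
          apply hS.mono.lt_iff_lt.1
          rw [h3, h4]
          exact hbc
        have h6 : N (idx b + 1) ≤ N (idx c) := hS.mono.monotone (by omega)
        omega
    calc ∑ m ∈ v.support, v m * wt (w (idx m)) A
        = ∑ m ∈ A', v m * wt (w (idx m)) A := by
          rw [hA']
          symm
          refine Finset.sum_subset (Finset.filter_subset _ _) fun m hm hm2 => ?_
          rw [wt_zero, mul_zero]
          intro a ha ha2
          exact hm2 (Finset.mem_filter.2 ⟨hm, a, ha, ha2⟩)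
      _ ≤ ∑ m ∈ A', v m := Finset.sum_le_sum fun m _ =>
          mul_le_of_le_one_right (hv.1 m) (wt_le_one (hS.cvx _) A)
      _ = wt v A' := rfl
      _ ≤ ε := hvM A' hmem

lemma hs_union {ι : Type} (M : ι → Set (Finset ℕ)) (hM : ∀ i, HS (M i)) (s : Set ι) :
    HS {A | ∃ i ∈ s, A ∈ M i} := by
  rintro A ⟨i, hi, hA⟩ B f hf hm
  exact ⟨i, hi, hM i A hA B f hf hm⟩

lemma ptak_mono {M M' : Set (Finset ℕ)} (h : M ⊆ M') (hP : Ptak M') : Ptak M := by
  intro L hL ε hε
  obtain ⟨w, h1, h2⟩ := hP L hL ε hε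
  exact ⟨w, h1, fun A hA => h2 A (h hA)⟩

/-- few indices of successive supports -/
lemma few {N : ℕ → ℕ} (hN : StrictMono N) (a p : ℕ) :
    ∑ i ∈ Finset.range p, (if N i < a ∧ a ≤ N (i + 1) then (1 : ℝ) else 0) ≤ 1 := by
  classical
  rw [← Finset.sum_filter, Finset.sum_const, nsmul_eq_mul, mul_one]
  have h1 : ((Finset.range p).filter fun i => N i < a ∧ a ≤ N (i + 1)).card ≤ 1 := by
    rw [Finset.card_le_one]
    intro i hi j hj
    have h2 := (Finset.mem_filter.1 hi).2
    have h3 := (Finset.mem_filter.1 hj).2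
    by_contra hij
    rcases lt_or_gt_of_ne hij with h | h
    · have : N (i + 1) ≤ N j := hN.monotone (by omega)
      omega
    · have : N (j + 1) ≤ N i := hN.monotone (by omega)
      omega
  exact_mod_cast h1

theorem pf_PTD (hPTU : T_PTU) : T_PTD := by
  classical
  intro M hM hP L hL ε hε
  have hfin : ∀ q : ℕ, Ptak {A | ∃ k ∈ {k : ℕ | k ≤ q}, A ∈ M k} := by
    intro q
    induction q with
    | zero =>
      refine ptak_mono ?_ (hP 0)
      rintro A ⟨k, hk, hA⟩
      obtain rfl : k = 0 := Nat.le_zero.1 hk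
      exact hA
    | succ q ih =>
      refine ptak_mono ?_ (hPTU _ _ (hs_union M hM {k : ℕ | k ≤ q}) (hM (q + 1)) ih (hP (q + 1)))
      rintro A ⟨k, hk, hA⟩
      rcases Nat.lt_or_ge q k with h | h
      · right
        obtain rfl : k = q + 1 := by
          have : k ≤ q + 1 := hk
          omega
        exact hA
      · left
        exact ⟨k, h, hA⟩
  obtain ⟨N, w, hS, hw⟩ := exists_suc L
    (fun n w => ∀ A ∈ {A | ∃ k ∈ {k : ℕ | k ≤ n}, A ∈ M k}, wt w A ≤ ε / 2)
    (fun n => hfin n _ (inf_above hL n) (ε / 2) (by positivity))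
  obtain ⟨p, hp⟩ := exists_nat_gt (4 / ε)
  have hp0 : (0 : ℝ) < p := lt_trans (by positivity) hp
  have hpε : 2 * (1 / (p : ℝ)) ≤ ε / 2 := by
    rw [div_lt_iff₀ hε] at hp
    rw [mul_one_div, div_le_iff₀ hp0]
    linarith
  have hsum1 : ∑ _i ∈ Finset.range p, (1 / (p : ℝ)) = 1 := by
    rw [Finset.sum_const, Finset.card_range, nsmul_eq_mul, mul_one_div, div_self hp0.ne']
  have hcv : Cvx L (∑ i ∈ Finset.range p, (1 / (p : ℝ)) • w i) :=
    cvx_sum _ _ _ L (fun i _ => by positivity) hsum1 fun i _ => hS.cvx i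
  refine ⟨_, hcv, ?_⟩
  rintro A ⟨n, k, hnk, hA⟩
  set W := ∑ i ∈ Finset.range p, (1 / (p : ℝ)) • w i with hW
  have b1 : wt W {n} ≤ 1 / p := by
    rw [hW, wt_sum, ← Finset.mul_sum]
    have h1 : ∑ i ∈ Finset.range p, wt (w i) {n} ≤ 1 := by
      refine le_trans (Finset.sum_le_sum fun i _ => ?_) (few hS.mono n p)
      split_ifs with h
      · exact wt_le_one (hS.cvx i) _
      · rw [wt_zero]
        intro a ha ha2
        rw [Finset.mem_singleton] at ha
        rw [ha] at ha2
        exact h (hS.supp i n ha2)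
    calc 1 / (p : ℝ) * ∑ i ∈ Finset.range p, wt (w i) {n} ≤ 1 / p * 1 :=
          mul_le_mul_of_nonneg_left h1 (by positivity)
      _ = 1 / p := mul_one _
  have b2 : wt W (A.erase n) ≤ 1 / p + ε / 2 := by
    rcases (A.erase n).eq_empty_or_nonempty with he | hne
    · rw [he, wt_zero]
      · positivity
      · simp
    · set a0 := (A.erase n).min' hne with ha0
      have hk : k ≤ a0 := (hnk a0 (Finset.min'_mem _ _)).2
      rw [hW, wt_sum, ← Finset.mul_sum]
      have h1 : ∑ i ∈ Finset.range p, wt (w i) (A.erase n) ≤ 1 + p * (ε / 2) := by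
        have h2 : ∑ i ∈ Finset.range p, wt (w i) (A.erase n) ≤
            ∑ i ∈ Finset.range p,
              ((if N i < a0 ∧ a0 ≤ N (i + 1) then (1 : ℝ) else 0) + ε / 2) := by
          refine Finset.sum_le_sum fun i _ => ?_
          by_cases h3 : N i < a0 ∧ a0 ≤ N (i + 1)
          · rw [if_pos h3]
            have := wt_le_one (hS.cvx i) (A.erase n)
            linarith
          · rw [if_neg h3, zero_add]
            by_cases h4 : N i < a0
            · rw [wt_zero]
              · positivity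
              · intro a ha ha2
                have h5 := (hS.supp i a ha2).2
                have h6 : a0 ≤ a := Finset.min'_le _ a ha
                exact h3 ⟨h4, h6.trans h5⟩
            · exact hw i _ ⟨k, hk.trans (not_lt.1 h4), hA⟩
        refine h2.trans ?_
        rw [Finset.sum_add_distrib, Finset.sum_const, Finset.card_range, nsmul_eq_mul]
        have := few hS.mono a0 p
        linarith
      calc 1 / (p : ℝ) * ∑ i ∈ Finset.range p, wt (w i) (A.erase n)
          ≤ 1 / p * (1 + p * (ε / 2)) := mul_le_mul_of_nonneg_left h1 (by positivity)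
        _ = 1 / p + ε / 2 := by
            field_simp
  have b3 : wt W A ≤ wt W {n} + wt W (A.erase n) := by
    by_cases hn : n ∈ A
    · have h1 : wt W A = wt W {n} + wt W (A.erase n) := by
        unfold wt
        rw [Finset.sum_singleton, Finset.add_sum_erase A _ hn]
      exact h1.le
    · rw [Finset.erase_eq_of_notMem hn]
      have := wt_nonneg hcv.1 {n}
      linarith
  linarith

end Pool.Agent.H5.WR
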