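import Pool.Agent.H5.WR.FHS
import Pool.Agent.H5.WR.PTU

/-! # Row PTF: the property of Ptak for the family of a tree -/

set_option autoImplicit false

open Filter Topology Set Pool.Agent.H85.WMP Pool.Agent.H88.WR

namespace Pool.Agent.H5.WR

/-- the family of a node of the tree -/
def Fam (Tr : ℕ → List ℕ → Prop) (C : ℕ) (s : List ℕ) : Set (Finset ℕ) :=
  {A | A = ∅ ∨ ∃ t, Tr C (s ++ t) ∧ List.Forall₂ (· ≤ ·) t (A.sort (· ≤ ·)).tail}

lemma hs_fam {Tr : ℕ → List ℕ → Prop} (hT : WFT Tr) (C : ℕ) (s : List ℕ) : HS (Fam Tr C s) := by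
  intro A hA B f hf hm
  rcases B.eq_empty_or_nonempty with rfl | hB
  · exact Or.inl rfl
  rcases hA with rfl | ⟨t, hC, ht⟩
  · obtain ⟨b, hb⟩ := hB
    have := (hf b hb).1
    simp at this
  · obtain ⟨n, hn⟩ := spread_tail A B f hf hm t ht
    refine Or.inr ⟨t.take n, hT.pre C (s ++ t.take n) (t.drop n) ?_, hn⟩
    rw [List.append_assoc, List.take_append_drop]
    exact hC

lemma ptak_step {Tr : ℕ → List ℕ → Prop} (hT : WFT Tr) (C : ℕ) (s : List ℕ)
    (hPTD : T_PTD) (h : ∀ k, Ptak (Fam Tr C (s ++ [k]))) : Ptak (Fam Tr C s) := by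
  refine ptak_mono ?_ (hPTD (fun k => Fam Tr C (s ++ [k])) (fun k => hs_fam hT C _) h)
  intro A hA
  rcases hA with rfl | ⟨t, hC, ht⟩
  · exact ⟨0, 0, by simp, Or.inl (by simp)⟩
  rcases A.eq_empty_or_nonempty with rfl | hne
  · exact ⟨0, 0, by simp, Or.inl (by simp)⟩
  obtain ⟨n, l, hl, hn, hl2, hlt, -⟩ := sort_split A hne
  rw [hl, List.tail_cons] at ht
  cases t with
  | nil =>
    have hl0 : l = [] := List.forall₂_nil_left_iff.1 ht
    have he : A.erase n = ∅ := by
      rw [hl0] at hl2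
      have h1 := congrArg List.length hl2
      rw [Finset.length_sort, List.length_nil] at h1
      exact Finset.card_eq_zero.1 h1
    refine ⟨n, 0, fun a ha => ?_, Or.inl he⟩
    rw [he] at ha
    simp at ha
  | cons t1 t' =>
    cases l with
    | nil => exact absurd ht (by simp)
    | cons a1 l' =>
      rw [List.forall₂_cons] at ht
      have hne2 : (A.erase n).Nonempty := by
        rw [Finset.nonempty_iff_ne_empty]
        intro h0
        rw [h0, Finset.sort_empty] at hl2
        exact absurd hl2 (by simp)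
      obtain ⟨n2, l2, hs2, -, -, -, hmin⟩ := sort_split (A.erase n) hne2
      have h3 : n2 :: l2 = a1 :: l' := by rw [← hs2, hl2]
      obtain ⟨rfl, rfl⟩ := List.cons.inj h3
      refine ⟨n, t1, fun a ha => ⟨hlt a ha, ht.1.trans (hmin a ha)⟩, Or.inr ⟨t', ?_, ?_⟩⟩
      · rw [List.append_assoc]
        exact hC
      · rw [hl2, List.tail_cons]
        exact ht.2

lemma ptak_nil {Tr : ℕ → List ℕ → Prop} (hT : WFT Tr) (C : ℕ) (hPTD : T_PTD) :
    Ptak (Fam Tr C []) := by
  by_contra hcon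
  have hex : ∀ s : List ℕ, ∃ k, ¬ Ptak (Fam Tr C s) → ¬ Ptak (Fam Tr C (s ++ [k])) := by
    intro s
    by_cases hs : Ptak (Fam Tr C s)
    · exact ⟨0, fun h => absurd hs h⟩
    · by_contra h
      push Not at h
      exact hs (ptak_step hT C s hPTD fun k => (h k).2)
  choose K hK using hex
  let S : ℕ → List ℕ := fun i => Nat.rec [] (fun _ s => s ++ [K s]) i
  have hSs : ∀ i, S (i + 1) = S i ++ [K (S i)] := fun i => rfl
  have hSm : ∀ i, S i = (List.range i).map fun i => K (S i) := by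
    intro i
    induction i with
    | zero => rfl
    | succ i ih =>
      rw [hSs, List.range_succ, List.map_append, ← ih]
      rfl
  have hbad : ∀ i, ¬ Ptak (Fam Tr C (S i)) := by
    intro i
    induction i with
    | zero => exact hcon
    | succ i ih =>
      rw [hSs]
      exact hK _ ih
  obtain ⟨r, hr⟩ := hT.nobr C fun i => K (S i)
  rw [← hSm] at hr
  apply hbad r
  intro L hL ε hε
  obtain ⟨n, hn⟩ := hL.nonempty
  refine ⟨Finsupp.single n 1, ⟨fun m => ?_, ?_, fun m hm => ?_⟩, fun A hA => ?_⟩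
  · classical
    rw [Finsupp.single_apply]
    split_ifs
    · exact zero_le_one
    · exact le_rfl
  · rw [Finsupp.sum_single_index rfl]
  · have h1 := Finsupp.support_single_subset hm
    rw [Finset.mem_singleton.1 h1]
    exact hn
  · rcases hA with rfl | ⟨t, hC, -⟩
    · unfold wt
      rw [Finset.sum_empty]
      exact hε.le
    · exact absurd (hT.pre C _ t hC) hr

theorem pf_PTF (hPTD : T_PTD) (_ : T_FHS) : T_PTF := by
  intro Tr hT
  refine ptak_mono ?_ (hPTD (fun k => Fam Tr k []) (fun k => hs_fam hT k _)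
    (fun k => ptak_nil hT k hPTD))
  intro A hA
  rcases hA with rfl | ⟨C, s, hC, hCA, hs⟩
  · exact ⟨0, 0, by simp, Or.inl (by simp)⟩
  rcases A.eq_empty_or_nonempty with rfl | hne
  · exact ⟨0, 0, by simp, Or.inl (by simp)⟩
  obtain ⟨n, l, hl, hn, hl2, hlt, -⟩ := sort_split A hne
  refine ⟨n, C, fun a ha => ⟨hlt a ha, hCA a (Finset.mem_of_mem_erase ha)⟩, ?_⟩
  refine hs_fam hT C [] A (Or.inr ⟨s, hC, hs⟩) (A.erase n) id
    (fun b hb => ⟨Finset.mem_of_mem_erase hb, le_rfl⟩) (strictMonoOn_id)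

end Pool.Agent.H5.WR
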